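import Mathlib

/-!
# From Poincare to Cheeger for log-concave measures by a discrete heat flow: statements

The Gaussian Euler scheme `K v = N_σ (v ∘ T)`, `T x = x - (σ²/2) b(x)`, for a measure `exp(-U) dx` with
convex `U` and Lipschitz gradient `b`.
-/

set_option autoImplicit false

namespace Pool.Agent.W695.KH

open MeasureTheory Set Filter Topology
open scoped ENNReal InnerProductSpace Pointwise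

/-- Euclidean space -/
abbrev Eu (κ : Type) [Fintype κ] : Type := EuclideanSpace ℝ κ

section defs

variable {κ : Type} [Fintype κ]

/-- standard Gaussian density -/
noncomputable def ga (w : Eu κ) : ℝ :=
  Real.exp (-(‖w‖ ^ 2 / 2)) / ∫ z : Eu κ, Real.exp (-(‖z‖ ^ 2 / 2))

/-- Gaussian average `E v(x + σ G)` -/
noncomputable def Nn (σ : ℝ) (v : Eu κ → ℝ) (x : Eu κ) : ℝ := ∫ w, v (x + σ • w) * ga w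

/-- `|v| ≤ 1`, `v` is `C¹`, `‖∇ v‖ ≤ L`, `∇ v` is `M`-Lipschitz -/
structure Sm (v : Eu κ → ℝ) (L M : ℝ) : Prop where
  bdd : ∀ x, |v x| ≤ 1
  diff : ContDiff ℝ 1 v
  grad : ∀ x, ‖fderiv ℝ v x‖ ≤ L
  lip : ∀ x y, ‖fderiv ℝ v x - fderiv ℝ v y‖ ≤ M * ‖x - y‖

/-- potential `U` with `A`-Lipschitz gradient `b`, nonexpansive gradient steps, integrability -/
structure Pot (U : Eu κ → ℝ) (b : Eu κ → Eu κ) (A : ℝ) : Prop where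
  pos : 0 < A
  der : ∀ x, HasFDerivAt U (innerSL ℝ (b x)) x
  lip : ∀ x y, ‖b x - b y‖ ≤ A * ‖x - y‖
  contr : ∀ h : ℝ, 0 ≤ h → h * A ≤ 1 → ∀ x y, ‖(x - h • b x) - (y - h • b y)‖ ≤ ‖x - y‖
  int : Integrable fun x => (1 + ‖b x‖ ^ 2) * Real.exp (-U x)

/-- one step of the scheme -/
noncomputable def Kk (σ : ℝ) (b : Eu κ → Eu κ) (v : Eu κ → ℝ) : Eu κ → ℝ :=
  Nn σ fun y => v (y - (σ ^ 2 / 2) • b y)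

/-- the derivative of `f exp(-U)` -/
noncomputable def dph (f U : Eu κ → ℝ) (b : Eu κ → Eu κ) (x w : Eu κ) : ℝ :=
  (fderiv ℝ f x w - f x * ⟪b x, w⟫_ℝ) * Real.exp (-U x)

/-- normalised potential `A/2 dist(x, D)² + log Z` -/
noncomputable def Uu (D : Set (Eu κ)) (A : ℝ) (x : Eu κ) : ℝ :=
  A / 2 * Metric.infDist x D ^ 2 + Real.log (∫ y : Eu κ, Real.exp (-(A / 2 * Metric.infDist y D ^ 2)))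

/-- `∫ v dμ` for `μ = exp(-U) dx` -/
noncomputable def EU (U : Eu κ → ℝ) (v : Eu κ → ℝ) : ℝ := ∫ x, v x * Real.exp (-U x)

/-- mean over `D` -/
noncomputable def EV (D : Set (Eu κ)) (v : Eu κ → ℝ) : ℝ := (∫ x in D, v x) / (volume D).toReal

/-- variance over `D` -/
noncomputable def VV (D : Set (Eu κ)) (v : Eu κ → ℝ) : ℝ := EV D (fun x => v x ^ 2) - EV D v ^ 2

/-- every `C¹` function `|v| ≤ 1` with bounded gradient and variance at least `δ` has energy at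
least `c` -/
def WPo (U : Eu κ → ℝ) (δ c : ℝ) : Prop :=
  ∀ (v : Eu κ → ℝ) (L : ℝ), ContDiff ℝ 1 v → (∀ x, |v x| ≤ 1) → (∀ x, ‖fderiv ℝ v x‖ ≤ L) →
    δ ≤ EU U (fun x => v x ^ 2) - EU U v ^ 2 → c ≤ EU U fun x => ‖fderiv ℝ v x‖ ^ 2

open Classical in
/-- divergence -/
noncomputable def dv (X : Eu κ → Eu κ) (x : Eu κ) : ℝ :=
  ∑ i, fderiv ℝ X x (EuclideanSpace.single i 1) i

/-- De Giorgi: `P` is an upper bound of the perimeter of `E` in `Ω` -/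
def PerLe (Ω E : Set (Eu κ)) (P : ℝ) : Prop :=
  ∀ X : Eu κ → Eu κ, ContDiff ℝ 1 X → HasCompactSupport X → tsupport X ⊆ Ω → (∀ x, ‖X x‖ ≤ 1) →
    ∫ x in E, dv X x ≤ P

/-- area of the central section of `Ω` by the hyperplane orthogonal to `a` -/
noncomputable def sec (Ω : Set (Eu κ)) (a : Eu κ) : ℝ≥0∞ :=
  volume {y : (Submodule.span ℝ {a})ᗮ | (y : Eu κ) ∈ Ω}

end defs

/-! ### Gaussian facts -/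

def S_gauss : Prop := ∀ (κ : Type) [Fintype κ],
  (∀ w : Eu κ, 0 < ga w) ∧ Continuous (ga (κ := κ)) ∧ (∀ w : Eu κ, ga (-w) = ga w) ∧
  (∀ k : ℕ, Integrable fun w : Eu κ => ‖w‖ ^ k * ga w) ∧ (∫ w : Eu κ, ga w = 1) ∧
  (∀ a : Eu κ, ∫ w : Eu κ, ⟪a, w⟫_ℝ * ga w = 0) ∧
  (∀ a b : Eu κ, ∫ w : Eu κ, ⟪a, w⟫_ℝ * ⟪b, w⟫_ℝ * ga w = ⟪a, b⟫_ℝ)

def S_grad : Prop := ∀ (κ : Type) [Fintype κ] (σ L : ℝ) (v : Eu κ → ℝ), 0 < σ → 0 ≤ L →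
  (∀ x, |v x| ≤ 1) → (∀ x y, |v x - v y| ≤ L * ‖x - y‖) →
  ContDiff ℝ 1 (Nn σ v) ∧ (∀ x, |Nn σ v x| ≤ 1) ∧ (∀ x, ‖fderiv ℝ (Nn σ v) x‖ ≤ L) ∧
  (∀ x y, ‖fderiv ℝ (Nn σ v) x - fderiv ℝ (Nn σ v) y‖ ≤ L / σ * ‖x - y‖) ∧
  ∀ x, σ ^ 2 * ‖fderiv ℝ (Nn σ v) x‖ ^ 2 ≤ Nn σ (fun y => v y ^ 2) x - Nn σ v x ^ 2

def S_step : Prop := ∀ (κ : Type) [Fintype κ] (σ L M : ℝ) (v : Eu κ → ℝ), 0 < σ → 0 ≤ L → 0 ≤ M →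
  Sm v L M → ∀ T : Eu κ → Eu κ, (∀ x y, ‖T x - T y‖ ≤ ‖x - y‖) → ∀ x,
  ‖fderiv ℝ (Nn σ fun y => v (T y)) x‖ ^ 2 ≤ Nn σ (fun y => ‖fderiv ℝ v (T y)‖ ^ 2) x

/-- the iterates: regularity and gradient bound `‖∇ Kⁿ f‖² ≤ 1 / (n σ²)` -/
def S_iter : Prop := ∀ (κ : Type) [Fintype κ] (U : Eu κ → ℝ) (b : Eu κ → Eu κ) (A : ℝ), Pot U b A →
  ∀ (σ L : ℝ) (f : Eu κ → ℝ), 0 < σ → σ ^ 2 * A ≤ 2 → 0 ≤ L → Sm f L (L / σ) →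
  ∀ n : ℕ, Sm ((Kk σ b)^[n] f) L (L / σ) ∧
    (∀ x, n * σ ^ 2 * ‖fderiv ℝ ((Kk σ b)^[n] f) x‖ ^ 2 ≤ 1)

/-! ### the near-generator identity -/

def S_tayl : Prop := ∀ (κ : Type) [Fintype κ] (U : Eu κ → ℝ) (b : Eu κ → Eu κ) (A : ℝ), Pot U b A →
  ∀ (f : Eu κ → ℝ) (L M : ℝ), Sm f L M → ∃ C : ℝ, 0 ≤ C ∧ ∀ w : Eu κ,
  (Integrable fun x => |f (x - w) * Real.exp (-U (x - w)) - f x * Real.exp (-U x)| * (1 + ‖b x‖)) ∧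
  (∫ x, |f (x - w) * Real.exp (-U (x - w)) - f x * Real.exp (-U x)| * (1 + ‖b x‖) ≤
    C * ‖w‖ * (1 + ‖w‖) ^ 3) ∧
  (Integrable fun x => |f (x - w) * Real.exp (-U (x - w)) - f x * Real.exp (-U x) +
    dph f U b x w|) ∧
  (∫ x, |f (x - w) * Real.exp (-U (x - w)) - f x * Real.exp (-U x) + dph f U b x w| ≤
    C * ‖w‖ ^ 2 * (1 + ‖w‖) ^ 3) ∧
  (Integrable fun x => |f (x - w) * Real.exp (-U (x - w))| * ‖b x‖ ^ 2) ∧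
  (∫ x, |f (x - w) * Real.exp (-U (x - w))| * ‖b x‖ ^ 2 ≤ C * (1 + ‖w‖) ^ 2)

def S_gen : Prop := ∀ (κ : Type) [Fintype κ] (U : Eu κ → ℝ) (b : Eu κ → Eu κ) (A : ℝ), Pot U b A →
  ∀ (f : Eu κ → ℝ) (Lf Mf : ℝ), Sm f Lf Mf → ∃ C : ℝ, 0 ≤ C ∧
  ∀ (σ L : ℝ) (u : Eu κ → ℝ), 0 < σ → σ ≤ 1 → σ ^ 2 * A ≤ 2 → 0 ≤ L → Sm u L (L / σ) →
  |EU U (fun x => f x * (u x - Kk σ b u x)) -
    σ ^ 2 / 2 * EU U (fun x => fderiv ℝ u x (gradient f x))| ≤ C * L * σ ^ 3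

/-! ### core -/

def S_core : Prop := ∀ (κ : Type) [Fintype κ] (U : Eu κ → ℝ) (b : Eu κ → Eu κ) (A : ℝ), Pot U b A →
  EU U (fun _ => 1) = 1 → ∀ δ c : ℝ, 0 < δ → 0 < c → WPo U δ c →
  ∀ (f : Eu κ → ℝ) (L M : ℝ), Sm f L M → EU U f = 0 → 4 * δ < EU U (fun x => f x ^ 2) →
  EU U (fun x => f x ^ 2) ≤ 4 / c * (EU U fun x => ‖fderiv ℝ f x‖) ^ 2

/-! ### potentials of convex sets -/

def S_proj : Prop := ∀ (κ : Type) [Fintype κ] (D : Set (Eu κ)), IsCompact D → Convex ℝ D →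
  D.Nonempty → ∀ A : ℝ, 0 < A → (∃ b : Eu κ → Eu κ, Pot (Uu D A) b A) ∧
  EU (Uu D A) (fun _ => 1) = 1 ∧ ConvexOn ℝ univ (Uu D A)

def S_lim : Prop := ∀ (κ : Type) [Fintype κ] (D : Set (Eu κ)), IsCompact D → Convex ℝ D →
  0 < volume D → ∀ (g : Eu κ → ℝ) (B : ℝ), Continuous g → (∀ x, |g x| ≤ B * (1 + ‖x‖ ^ 2)) →
  Tendsto (fun A : ℝ => EU (Uu D A) g) atTop (𝓝 (EV D g))

def S_cov : Prop := ∀ (κ : Type) [Fintype κ] (D : Set (Eu κ)), IsCompact D → Convex ℝ D →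
  0 < volume D → ∀ s η : ℝ, 0 < η → (∀ θ : Eu κ, EV D (fun x => ⟪θ, x⟫_ℝ ^ 2) ≤ s * ‖θ‖ ^ 2) →
  ∀ᶠ A in atTop, ∀ θ : Eu κ, EU (Uu D A) (fun x => ⟪θ, x⟫_ℝ ^ 2) ≤ (s + η) * ‖θ‖ ^ 2

def S_body : Prop := ∀ (κ : Type) [Fintype κ] (D : Set (Eu κ)), IsCompact D → Convex ℝ D →
  0 < volume D → ∀ δ c : ℝ, 0 < δ → 0 < c → (∀ᶠ A in atTop, WPo (Uu D A) δ c) →
  ∀ (f : Eu κ → ℝ) (L M : ℝ), Sm f L M → (∀ x, |f x| ≤ 1 / 2) → 4 * δ < VV D f →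
  VV D f ≤ 4 / c * (EV D fun x => ‖fderiv ℝ f x‖) ^ 2

/-! ### sets, sections -/

def S_perim : Prop := ∀ (κ : Type) [Fintype κ] (Ω : Set (Eu κ)), IsOpen Ω → Convex ℝ Ω →
  Bornology.IsBounded Ω → (0 : Eu κ) ∈ Ω → ∀ E : Set (Eu κ), MeasurableSet E → E ⊆ Ω →
  volume E = volume Ω / 2 → ∀ P : ℝ, PerLe Ω E P → ∀ B : ℝ, 0 < B →
  (∀ r : ℝ, 0 < r → r < 1 → ∀ (f : Eu κ → ℝ) (L M : ℝ), Sm f L M → (∀ x, |f x| ≤ 1 / 2) →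
    1 / 5 < VV (r • closure Ω) f →
    VV (r • closure Ω) f ≤ (B * EV (r • closure Ω) fun x => ‖fderiv ℝ f x‖) ^ 2) →
  (volume Ω).toReal ≤ 3 * B * P

/-- the marginal density `φ` of `Ω` in the direction `a` -/
def S_marg : Prop := ∀ (κ : Type) [Fintype κ] (Ω : Set (Eu κ)), IsOpen Ω →
  Convex ℝ Ω → Bornology.IsBounded Ω → (0 : Eu κ) ∈ Ω → (∀ x ∈ Ω, -x ∈ Ω) → ∀ a : Eu κ, ‖a‖ = 1 →
  sec Ω a ≠ ⊤ ∧ ∃ φ : ℝ → ℝ, Measurable φ ∧ (∀ r, 0 ≤ φ r) ∧ (∀ r, φ (-r) = φ r) ∧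
    (∀ x y t : ℝ, 0 < t → t < 1 → φ x ^ (1 - t) * φ y ^ t ≤ φ ((1 - t) * x + t * y)) ∧
    (∃ R : ℝ, ∀ r, R < |r| → φ r = 0) ∧ (sec Ω a).toReal = φ 0 ∧
    ∀ g : ℝ → ℝ≥0∞, Measurable g →
      ∫⁻ x in Ω, g ⟪a, x⟫_ℝ = ∫⁻ r, g r * ENNReal.ofReal (φ r)

/-- even log-concave functions on the line: `φ(0)² ∫ r² φ ≤ C (∫ φ)³` -/
def S_oned : Prop := ∃ C : ℝ, 0 < C ∧ ∀ φ : ℝ → ℝ, Measurable φ → (∀ r, 0 ≤ φ r) →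
  (∀ r, φ (-r) = φ r) →
  (∀ x y t : ℝ, 0 < t → t < 1 → φ x ^ (1 - t) * φ y ^ t ≤ φ ((1 - t) * x + t * y)) →
  (∃ R : ℝ, ∀ r, R < |r| → φ r = 0) →
  (∀ r, φ r ≤ φ 0) ∧ Integrable φ ∧ (Integrable fun r => r ^ 2 * φ r) ∧
    φ 0 ^ 2 * (∫ r, r ^ 2 * φ r) ≤ C * (∫ r, φ r) ^ 3

def S_sec : Prop := ∃ C : ℝ, 0 < C ∧ ∀ (κ : Type) [Fintype κ] (Ω : Set (Eu κ)), IsOpen Ω →
  Convex ℝ Ω → Bornology.IsBounded Ω → (0 : Eu κ) ∈ Ω → (∀ x ∈ Ω, -x ∈ Ω) → ∀ a : Eu κ, ‖a‖ = 1 →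
  sec Ω a ≠ ⊤ ∧ (sec Ω a).toReal ^ 2 * EV Ω (fun x => ⟪a, x⟫_ℝ ^ 2) ≤ C * (volume Ω).toReal ^ 2 ∧
  ∀ ε : ℝ, 0 < ε → volume (Ω ∩ {x | 0 < ⟪a, x⟫_ℝ ∧ ⟪a, x⟫_ℝ ≤ ε}) ≤ ENNReal.ofReal ε * sec Ω a

/-- **hyperplane cuts** for a convex body `Ω` all of whose potentials `Uu (r • closure Ω) A` satisfy
the weak Poincare inequality with constant `k` times the largest variance -/
def S_main : Prop := ∃ C : ℝ, 0 < C ∧ ∀ (κ : Type) [Fintype κ] [Nonempty κ] (Ω : Set (Eu κ)),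
  IsOpen Ω → Convex ℝ Ω → Bornology.IsBounded Ω → (0 : Eu κ) ∈ Ω → (∀ x ∈ Ω, -x ∈ Ω) →
  ∀ k : ℝ, 0 < k →
  (∀ r A s : ℝ, 0 < r → r < 1 → 0 < A → 0 < s →
    (∀ θ : Eu κ, EU (Uu (r • closure Ω) A) (fun x => ⟪θ, x⟫_ℝ ^ 2) ≤ s * ‖θ‖ ^ 2) →
    ∀ v : Eu κ → ℝ, ContDiff ℝ 1 v → (∀ x, |v x| ≤ 1) → (∃ L : ℝ, ∀ x, ‖fderiv ℝ v x‖ ≤ L) →
    (EU (Uu (r • closure Ω) A) (fun x => v x ^ 2) - EU (Uu (r • closure Ω) A) v ^ 2) ^ 2 ≤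
      k * s * EU (Uu (r • closure Ω) A) fun x => ‖fderiv ℝ v x‖ ^ 2) →
  ∃ a : Eu κ, a ≠ 0 ∧ ∀ E : Set (Eu κ), MeasurableSet E → E ⊆ Ω → volume E = volume Ω / 2 →
    ∀ P : ℝ, PerLe Ω E P → sec Ω a ≤ ENNReal.ofReal (C * Real.sqrt k * P)

/-! ### Minkowski content -/

def S_mink : Prop := ∀ (κ : Type) [Fintype κ] (D : Set (Eu κ)), IsCompact D → Convex ℝ D →
  0 < volume D → ∀ B : ℝ, 0 < B →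
  (∀ (f : Eu κ → ℝ) (L M : ℝ), Sm f L M → (∀ x, |f x| ≤ 1 / 2) →
    VV D f ≤ B * EV D fun x => ‖fderiv ℝ f x‖) →
  ∀ μ : Measure (Eu κ), μ = (volume D)⁻¹ • volume.restrict D →
  ∀ S : Set (Eu κ), MeasurableSet S → μ S * (1 - μ S) ≤ ENNReal.ofReal B *
    liminf (fun ε : ℝ => (μ (Metric.thickening ε S) - μ S) / ENNReal.ofReal ε) (𝓝[>] 0)

/-- halfspaces through the origin: `t/2 ≤ μ⁺(H)` forces `t² E⟪a,x⟫² ≤ C` -/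
def S_half : Prop := ∃ C : ℝ, 0 < C ∧ ∀ (κ : Type) [Fintype κ] (D : Set (Eu κ)), IsCompact D →
  Convex ℝ D → (interior D).Nonempty → (∀ x ∈ D, -x ∈ D) →
  ∀ μ : Measure (Eu κ), μ = (volume D)⁻¹ • volume.restrict D → ∀ (a : Eu κ) (t : ℝ≥0∞), ‖a‖ = 1 →
  t * min (μ {x : Eu κ | ⟪a, x⟫_ℝ ≤ 0}) (1 - μ {x : Eu κ | ⟪a, x⟫_ℝ ≤ 0}) ≤
    liminf (fun ε : ℝ => (μ (Metric.thickening ε {x : Eu κ | ⟪a, x⟫_ℝ ≤ 0}) -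
      μ {x : Eu κ | ⟪a, x⟫_ℝ ≤ 0}) / ENNReal.ofReal ε) (𝓝[>] 0) →
  t ^ 2 * ENNReal.ofReal (EV D fun x => ⟪a, x⟫_ℝ ^ 2) ≤ ENNReal.ofReal C

end Pool.Agent.W695.KH
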