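import Pool.Agent.H59.L.S8.W695.KH.Per
import Pool.Agent.H59.L.S8.W902.KH.Gauss
import Pool.Agent.H59.L.S8.W327.KH.Grad
import Pool.Agent.H59.L.S8.W597.KH.STEP
import Pool.Agent.H59.L.S8.W505.KH.Iter
import Pool.Agent.H59.L.S8.W505.KH.Tayl
import Pool.Agent.H59.L.S8.W500.KH.Gen
import Pool.Agent.H59.L.S8.W578.KH.Core
import Pool.Agent.H59.L.S8.W762.KH.Proj
import Pool.Agent.H59.L.S8.W12.KH.Lim
import Pool.Agent.H59.L.S8.W880.KH.Body
import Pool.Agent.H59.L.S8.W108.KH.Marg
import Pool.Agent.H59.L.S8.W880.KH.Oned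
import Pool.Agent.H59.L.S8.W214.KH.Sec
import Pool.Agent.H59.L.S8.W932.KH.Main
import Pool.Agent.H59.L.S8.W800.KH.Perim
import Pool.Agent.H59.L.S8.W800.KH.Mink

/-!
# From Poincare to Cheeger: assembly

Parts by helpers 12, 108, 214, 327, 500, 505, 578, 597, 762, 800, 880, 902, 932.
-/

set_option autoImplicit false

namespace Pool.Agent.W695.KH

theorem gauss : S_gauss := Pool.Agent.W902.KH.t_gauss

theorem grad : S_grad := Pool.Agent.W327.KH.t_grad gauss

theorem step : S_step := Pool.Agent.W597.KH.t_step gauss grad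

theorem iter : S_iter := Pool.Agent.W505.KH.t_iter gauss grad step

theorem tayl : S_tayl := Pool.Agent.W505.KH.t_tayl

theorem gen : S_gen := Pool.Agent.W500.KH.t_gen gauss tayl

theorem core : S_core := Pool.Agent.W578.KH.t_core gauss grad iter gen

theorem proj : S_proj := Pool.Agent.W762.KH.t_proj

theorem lim : S_lim := Pool.Agent.W12.KH.t_lim

theorem cov : S_cov := Pool.Agent.W12.KH.t_cov lim

theorem body : S_body := Pool.Agent.W880.KH.t_body proj lim core

theorem marg : S_marg := Pool.Agent.W108.KH.t_marg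

theorem oned : S_oned := Pool.Agent.W880.KH.t_oned

theorem sec_bound : S_sec := (Pool.Agent.W214.KH.t_sec marg oned).1

theorem half : S_half := (Pool.Agent.W214.KH.t_sec marg oned).2

theorem perim : S_perim := Pool.Agent.W800.KH.t_perim

theorem mink : S_mink := Pool.Agent.W800.KH.t_mink

theorem main : S_main := Pool.Agent.W932.KH.t_main body cov perim sec_bound

end Pool.Agent.W695.KH
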