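import Pool.Agent.H59.L.S8.W800.KH.Mink

/-!
# Minkowski content for sets of measure one half (from a weak inequality)
-/

set_option autoImplicit false

namespace Pool.Agent.W695.KH

open MeasureTheory Set Filter Topology
open scoped ENNReal InnerProductSpace
open Pool.Agent.W800.KH (exists_fun var_lower EV_eq)

theorem key2 {κ : Type} [Fintype κ] (D : Set (Eu κ)) (hD : IsCompact D) (hvol : 0 < volume D)
    (B : ℝ) (hB : 0 < B)
    (H : ∀ (f : Eu κ → ℝ) (L M : ℝ), Sm f L M → (∀ x, |f x| ≤ 1 / 2) → 1 / 5 < VV D f →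
      VV D f ≤ B * EV D fun x => ‖fderiv ℝ f x‖) (μ : Measure (Eu κ))
    (hμ : μ = (volume D)⁻¹ • volume.restrict D) (S : Set (Eu κ)) (hS : S.Nonempty) (ε : ℝ)
    (hε : 0 < ε) (hε1 : ε ≤ 1)
    (h15 : 1 / 5 < μ.real (closure S) * (1 - μ.real (Metric.thickening ε S))) :
    μ.real (closure S) * (1 - μ.real (Metric.thickening ε S)) * ε ≤
      B * (μ.real (Metric.thickening ε S) - μ.real (closure S)) := by
  have hprob := Pool.Agent.W800.KH.prob D hD hvol μ hμ
  have hsub : closure S ⊆ Metric.thickening ε S := Metric.closure_subset_thickening hε S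
  have hmc : MeasurableSet (closure S) := isClosed_closure.measurableSet
  have hmt : MeasurableSet (Metric.thickening ε S) := Metric.isOpen_thickening.measurableSet
  have hdiff : μ.real (Metric.thickening ε S \ closure S) =
      μ.real (Metric.thickening ε S) - μ.real (closure S) := measureReal_sdiff hsub hmc
  have hcompl : μ.real (Metric.thickening ε S)ᶜ = 1 - μ.real (Metric.thickening ε S) :=
    probReal_compl_eq_one_sub hmt
  have hstep : ∀ a : ℝ, 0 < a → a < ε →
      μ.real (closure S) * (1 - μ.real (Metric.thickening ε S)) * a ≤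
      B * (μ.real (Metric.thickening ε S) - μ.real (closure S)) := by
    intro a ha haε
    obtain ⟨f, M, hf, hfb, hf1, hf2⟩ := exists_fun S hS ε a hε1 ha haε
    have h1 := var_lower (μ := μ) f hf.diff.continuous hfb (closure S) (Metric.thickening ε S)ᶜ hmc
      hmt.compl (disjoint_compl_right_iff_subset.2 hsub) (fun x hx => (hf1 x hx).1)
      (fun x hx => (hf2 x hx).1)
    rw [hcompl] at h1
    have h2 := H f (1 / a) M hf hfb (by
      unfold VV
      rw [EV_eq D μ hμ, EV_eq D μ hμ]
      exact h15.trans_le h1)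
    unfold VV at h2
    rw [EV_eq D μ hμ, EV_eq D μ hμ, EV_eq D μ hμ] at h2
    have h3 : ∫ x, ‖fderiv ℝ f x‖ ∂μ ≤ (1 / a) * μ.real (Metric.thickening ε S \ closure S) := by
      have h4 : ∫ x, ‖fderiv ℝ f x‖ ∂μ ≤
          ∫ x, (Metric.thickening ε S \ closure S).indicator (fun _ => 1 / a) x ∂μ := by
        refine integral_mono_of_nonneg (Eventually.of_forall fun x => norm_nonneg _)
          ((integrable_const _).indicator (hmt.diff hmc)) (Eventually.of_forall fun x => ?_)
        by_cases hx : x ∈ Metric.thickening ε S \ closure S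
        · rw [indicator_of_mem hx]
          exact hf.grad x
        · rw [indicator_of_notMem hx]
          by_cases hxc : x ∈ closure S
          · simp [(hf1 x hxc).2]
          · have hxt : x ∉ Metric.thickening ε S := fun h => hx ⟨h, hxc⟩
            simp [(hf2 x hxt).2]
      refine h4.trans ?_
      rw [integral_indicator (hmt.diff hmc), setIntegral_const, smul_eq_mul, mul_comm]
    rw [hdiff] at h3
    have h5 : μ.real (closure S) * (1 - μ.real (Metric.thickening ε S)) ≤
        B * ((1 / a) * (μ.real (Metric.thickening ε S) - μ.real (closure S))) :=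
      h1.trans (h2.trans (mul_le_mul_of_nonneg_left h3 hB.le))
    calc μ.real (closure S) * (1 - μ.real (Metric.thickening ε S)) * a
        ≤ B * ((1 / a) * (μ.real (Metric.thickening ε S) - μ.real (closure S))) * a :=
          mul_le_mul_of_nonneg_right h5 ha.le
      _ = B * (μ.real (Metric.thickening ε S) - μ.real (closure S)) := by
          field_simp
  have htend : Tendsto (fun a : ℝ => μ.real (closure S) * (1 - μ.real (Metric.thickening ε S)) * a)
      (𝓝[<] ε) (𝓝 (μ.real (closure S) * (1 - μ.real (Metric.thickening ε S)) * ε)) := by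
    refine Tendsto.mono_left ?_ nhdsWithin_le_nhds
    exact (continuous_const.mul continuous_id).tendsto ε
  refine le_of_tendsto htend ?_
  filter_upwards [Ioo_mem_nhdsLT hε] with a ha
  exact hstep a ha.1 ha.2

theorem mink2 {κ : Type} [Fintype κ] (D : Set (Eu κ)) (hD : IsCompact D) (hvol : 0 < volume D)
    (B : ℝ) (hB : 0 < B)
    (H : ∀ (f : Eu κ → ℝ) (L M : ℝ), Sm f L M → (∀ x, |f x| ≤ 1 / 2) → 1 / 5 < VV D f →
      VV D f ≤ B * EV D fun x => ‖fderiv ℝ f x‖) (μ : Measure (Eu κ))
    (hμ : μ = (volume D)⁻¹ • volume.restrict D) (S : Set (Eu κ)) (hS2 : μ S = 1 / 2) :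
    μ S * (1 - μ S) ≤ ENNReal.ofReal B *
      liminf (fun ε : ℝ => (μ (Metric.thickening ε S) - μ S) / ENNReal.ofReal ε) (𝓝[>] 0) := by
  have hprob := Pool.Agent.W800.KH.prob D hD hvol μ hμ
  rcases S.eq_empty_or_nonempty with rfl | hne
  · simp
  have hB0 : ENNReal.ofReal B ≠ 0 := by
    rw [Ne, ENNReal.ofReal_eq_zero, not_le]; exact hB
  by_cases hcl : μ (closure S) = μ S
  · -- limit
    have h2 : Tendsto (fun ε : ℝ => μ (Metric.thickening ε S)) (𝓝[>] 0) (𝓝 (μ (closure S))) :=
      tendsto_measure_thickening ⟨1, one_pos, measure_ne_top _ _⟩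
    have h1 : Tendsto (fun ε : ℝ => (ENNReal.ofReal B)⁻¹ *
        (μ (closure S) * (1 - μ (Metric.thickening ε S)))) (𝓝[>] 0)
        (𝓝 ((ENNReal.ofReal B)⁻¹ * (μ (closure S) * (1 - μ (closure S))))) := by
      have h3 : Tendsto (fun ε : ℝ => 1 - μ (Metric.thickening ε S)) (𝓝[>] 0)
          (𝓝 (1 - μ (closure S))) :=
        ENNReal.Tendsto.sub tendsto_const_nhds h2 (Or.inl ENNReal.one_ne_top)
      refine ENNReal.Tendsto.const_mul (ENNReal.Tendsto.const_mul h3 (Or.inr (measure_ne_top _ _)))
        (Or.inr ?_)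
      exact ENNReal.inv_ne_top.2 hB0
    have hhalf : μ.real (closure S) = 1 / 2 := by
      rw [measureReal_def, hcl, hS2]
      norm_num
    have h2r : Tendsto (fun ε : ℝ => μ.real (closure S) * (1 - μ.real (Metric.thickening ε S)))
        (𝓝[>] 0) (𝓝 (1 / 2 * (1 - 1 / 2))) := by
      have h3 : Tendsto (fun ε : ℝ => μ.real (Metric.thickening ε S)) (𝓝[>] 0)
          (𝓝 (μ.real (closure S))) := (ENNReal.tendsto_toReal (measure_ne_top _ _)).comp h2
      rw [hhalf] at h3 ⊢
      exact (h3.const_sub 1).const_mul (1 / 2)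
    have hev : ∀ᶠ ε in 𝓝[>] (0 : ℝ),
        1 / 5 < μ.real (closure S) * (1 - μ.real (Metric.thickening ε S)) :=
      h2r.eventually (eventually_gt_nhds (by norm_num))
    have h4 : (ENNReal.ofReal B)⁻¹ * (μ (closure S) * (1 - μ (closure S))) ≤
        liminf (fun ε : ℝ => (μ (Metric.thickening ε S) - μ S) / ENNReal.ofReal ε) (𝓝[>] 0) := by
      rw [← h1.liminf_eq]
      refine liminf_le_liminf ?_
      filter_upwards [Ioc_mem_nhdsGT one_pos, hev] with ε hε hε5
      have h5 := key2 D hD hvol B hB H μ hμ S hne ε hε.1 hε.2 hε5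
      rw [← hcl]
      have hs : μ (closure S) = ENNReal.ofReal (μ.real (closure S)) :=
        (ofReal_measureReal (measure_ne_top _ _)).symm
      have ht : μ (Metric.thickening ε S) = ENNReal.ofReal (μ.real (Metric.thickening ε S)) :=
        (ofReal_measureReal (measure_ne_top _ _)).symm
      have ht1 : μ.real (Metric.thickening ε S) ≤ 1 := measureReal_le_one
      have hs0 : 0 ≤ μ.real (closure S) := measureReal_nonneg
      rw [hs, ht, ← ENNReal.ofReal_one, ← ENNReal.ofReal_sub _ measureReal_nonneg,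
        ← ENNReal.ofReal_sub _ hs0, ← ENNReal.ofReal_mul hs0, ← ENNReal.ofReal_inv_of_pos hB,
        ← ENNReal.ofReal_mul (inv_nonneg.2 hB.le), ← ENNReal.ofReal_div_of_pos hε.1]
      refine ENNReal.ofReal_le_ofReal ?_
      rw [le_div_iff₀ hε.1, inv_mul_eq_div, div_mul_eq_mul_div, div_le_iff₀ hB]
      linarith
    calc μ S * (1 - μ S) = ENNReal.ofReal B *
          ((ENNReal.ofReal B)⁻¹ * (μ (closure S) * (1 - μ (closure S)))) := by
          rw [← mul_assoc, ENNReal.mul_inv_cancel hB0 ENNReal.ofReal_ne_top, one_mul, hcl]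
      _ ≤ _ := mul_le_mul_right h4 _
  · -- the quotient tends to infinity
    have hlt : μ S < μ (closure S) := lt_of_le_of_ne (measure_mono subset_closure) (Ne.symm hcl)
    have hd0 : μ (closure S) - μ S ≠ 0 := (tsub_pos_of_lt hlt).ne'
    have h1 : Tendsto (fun ε : ℝ => (μ (closure S) - μ S) / ENNReal.ofReal ε) (𝓝[>] 0) (𝓝 ⊤) := by
      have h2 : Tendsto (fun ε : ℝ => ENNReal.ofReal ε) (𝓝[>] 0) (𝓝 0) := by
        have h3 := (ENNReal.continuous_ofReal.tendsto 0).mono_left
          (nhdsWithin_le_nhds (s := Ioi (0 : ℝ)))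
        rwa [ENNReal.ofReal_zero] at h3
      have h3 := ENNReal.Tendsto.div (tendsto_const_nhds (x := μ (closure S) - μ S)) (Or.inl hd0) h2
        (Or.inr (ENNReal.sub_ne_top (measure_ne_top _ _)))
      rwa [ENNReal.div_zero hd0] at h3
    have h4 : (⊤ : ℝ≥0∞) ≤
        liminf (fun ε : ℝ => (μ (Metric.thickening ε S) - μ S) / ENNReal.ofReal ε) (𝓝[>] 0) := by
      rw [← h1.liminf_eq]
      refine liminf_le_liminf ?_
      filter_upwards [self_mem_nhdsWithin] with ε hε
      exact ENNReal.div_le_div_right (tsub_le_tsub_right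
        (measure_mono (Metric.closure_subset_thickening hε S)) _) _
    rw [top_le_iff.1 h4, ENNReal.mul_top hB0]
    exact le_top

end Pool.Agent.W695.KH
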