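import Pool.Agent.H59.L.S8.W695.KH.Final
import Pool.Agent.H59.L.S8.W695.KH.Wrap2
import Pool.Agent.H59.L.S8.W695.KH.Mink2

/-!
# Cheeger form for sets of measure one half from the weak Poincare inequality
-/

set_option autoImplicit false

namespace Pool.Agent.W695.KH

open MeasureTheory Set Filter Topology
open scoped ENNReal InnerProductSpace Pointwise
open Pool.Agent.H212R2.KLS (mu)

theorem cheeger_half : ∃ c : ℝ, 0 < c ∧ ∀ (κ : Type) [Fintype κ] [Nonempty κ] (D : Set (Eu κ)),
    Convex ℝ D → IsCompact D → (interior D).Nonempty → (∀ x ∈ D, -x ∈ D) →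
    ∀ k : ℝ, 0 < k →
    (∀ A : ℝ, 0 < A → mu (rh D A) univ = 1 →
      (∀ x, 0 ≤ rh D A x) → Measurable (rh D A) →
      (∀ x y : Eu κ, ∀ t : ℝ, 0 < t → t < 1 → rh D A x ^ (1 - t) *
        rh D A y ^ t ≤ rh D A ((1 - t) • x + t • y)) →
      (∀ e : Eu κ ≃ₗᵢ[ℝ] Eu κ, (∀ x, e x ∈ D ↔ x ∈ D) → ∀ x, rh D A (e x) = rh D A x) →
      ∀ s : ℝ, 0 < s → (∀ θ : Eu κ,
        ∫⁻ x, ENNReal.ofReal (⟪θ, x⟫_ℝ ^ 2) ∂(mu (rh D A)) ≤ ENNReal.ofReal (s * ‖θ‖ ^ 2)) →
      ∀ v : Eu κ → ℝ, ContDiff ℝ 1 v → (∀ x, |v x| ≤ 1) →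
      ENNReal.ofReal ((∫ x, (v x - ∫ y, v y ∂(mu (rh D A))) ^ 2 ∂(mu (rh D A))) ^ 2) ≤
        ENNReal.ofReal (k * s) * ∫⁻ x, ENNReal.ofReal (‖fderiv ℝ v x‖ ^ 2) ∂(mu (rh D A))) →
    ∀ μ : Measure (Eu κ), μ = (volume D)⁻¹ • volume.restrict D →
    ∀ t : ℝ≥0∞,
      (∀ (u : Eu κ) (b : ℝ), u ≠ 0 →
        t * min (μ {x : Eu κ | inner ℝ u x ≤ b}) (1 - μ {x : Eu κ | inner ℝ u x ≤ b}) ≤
          liminf (fun ε : ℝ => (μ (Metric.thickening ε {x : Eu κ | inner ℝ u x ≤ b})
            - μ {x : Eu κ | inner ℝ u x ≤ b}) / ENNReal.ofReal ε) (𝓝[>] 0)) →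
      ∀ S : Set (Eu κ), μ S = 1 / 2 →
        ENNReal.ofReal (c / Real.sqrt k) * t * min (μ S) (1 - μ S) ≤
          liminf (fun ε : ℝ => (μ (Metric.thickening ε S) - μ S) / ENNReal.ofReal ε) (𝓝[>] 0) := by
  obtain ⟨C, hC, hhalf⟩ := half
  refine ⟨1 / (2 * Real.sqrt (3200 * C)), by positivity, ?_⟩
  intro κ _ _ D hco hcp hint hsym k hk hyp μ hμ t ht S hS
  have hcl : IsClosed D := hcp.isClosed
  have hDne : D.Nonempty := hint.mono interior_subset
  have hvol : 0 < volume D :=
    lt_of_lt_of_le (isOpen_interior.measure_pos volume hint) (measure_mono interior_subset)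
  have hfin : volume D ≠ ⊤ := hcp.measure_lt_top.ne
  have hvr : 0 < (volume D).toReal := ENNReal.toReal_pos hvol.ne' hfin
  -- the quadratic form
  have hcvi : Convex ℝ (interior D) := hco.interior
  have hopi : IsOpen (interior D) := isOpen_interior
  have hbdi : Bornology.IsBounded (interior D) := hcp.isBounded.subset interior_subset
  have h0i : (0 : Eu κ) ∈ interior D := by
    obtain ⟨x, hx⟩ := hint
    have hnx : -x ∈ interior D := by
      have h1 : -(interior D) = interior (-D) := by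
        have := (Homeomorph.neg (Eu κ)).image_interior D
        simpa using this
      have h2 : -D = D := by
        ext y
        constructor
        · intro hy
          have := hsym (-y) hy
          simpa using this
        · intro hy
          exact hsym y hy
      have h3 : -x ∈ -(interior D) := by simpa using hx
      rw [h1, h2] at h3
      exact h3
    have h1 := hcvi hx hnx (by norm_num : (0 : ℝ) ≤ 1 / 2)
      (by norm_num : (0 : ℝ) ≤ 1 / 2) (by norm_num)
    simpa using h1
  have hae : (D : Set (Eu κ)) =ᵐ[volume] interior D := by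
    have h1 := Pool.Agent.W932.KH.closure_ae hopi hcvi
    rwa [hco.closure_interior_eq_closure_of_nonempty_interior hint, hcl.closure_eq] at h1
  have hEV : ∀ g : Eu κ → ℝ, EV D g = EV (interior D) g := by
    intro g
    unfold EV
    rw [setIntegral_congr_set hae, measure_congr hae]
  obtain ⟨a, ha1, hamax'⟩ := Pool.Agent.W932.KH.q_max hopi hbdi
  obtain ⟨qa, hqa'⟩ : ∃ qa : ℝ, qa = EV D (fun x => ⟪a, x⟫_ℝ ^ 2) := ⟨_, rfl⟩
  have hamax : ∀ θ : Eu κ, EV D (fun x => ⟪θ, x⟫_ℝ ^ 2) ≤ qa * ‖θ‖ ^ 2 := by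
    intro θ
    rw [hqa', hEV, hEV]
    exact hamax' θ
  have hqa : 0 < qa := by
    rw [hqa', hEV]
    exact Pool.Agent.W932.KH.q_pos hopi hbdi h0i a ha1
  obtain ⟨B, hB⟩ : ∃ B : ℝ, B = Real.sqrt (3200 * k * qa) := ⟨_, rfl⟩
  have hB0 : 0 < B := by rw [hB]; positivity
  -- the inequality for functions
  have hfun : ∀ (f : Eu κ → ℝ) (L M : ℝ), Sm f L M → (∀ x, |f x| ≤ 1 / 2) → 1 / 5 < VV D f →
      VV D f ≤ B * EV D fun x => ‖fderiv ℝ f x‖ := by
    intro f L M hf hf2 hV5
    have hE0 : 0 ≤ EV D fun x => ‖fderiv ℝ f x‖ :=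
      div_nonneg (integral_nonneg fun x => norm_nonneg _) hvr.le
    have hV : 0 < VV D f := lt_trans (by norm_num) hV5
    have hV1 : VV D f ≤ 1 := by
      have h3 : EV D (fun x => f x ^ 2) ≤ 1 := by
        unfold EV
        rw [div_le_one hvr]
        calc ∫ x in D, f x ^ 2 ≤ ∫ x in D, (1 : ℝ) := by
              refine setIntegral_mono_on ?_ ?_ hcp.measurableSet ?_
              · exact (hf.diff.continuous.pow 2).continuousOn.integrableOn_compact hcp
              · exact integrableOn_const hfin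
              · intro x _
                rw [← sq_abs]
                exact pow_le_one₀ (abs_nonneg _) ((hf2 x).trans (by norm_num))
          _ = (volume D).toReal := by
              rw [setIntegral_const, smul_eq_mul, mul_one, measureReal_def]
      unfold VV
      nlinarith [sq_nonneg (EV D f)]
    have hcov := cov κ D hcp hco hvol qa qa hqa hamax
    have hW : ∀ᶠ A in atTop, WPo (Uu D A) (1 / 20) ((1 / 20) ^ 2 / (k * (2 * qa))) := by
      filter_upwards [hcov, eventually_gt_atTop 0] with A hA hA0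
      intro v L' hv hv1 hvL hvar
      obtain ⟨-, h1, hcvx⟩ := proj κ D hcp hco hDne A hA0
      have hcov' : ∀ θ : Eu κ, ∫⁻ x, ENNReal.ofReal (⟪θ, x⟫_ℝ ^ 2) ∂(mu (rh D A)) ≤
          ENNReal.ofReal (2 * qa * ‖θ‖ ^ 2) := by
        intro θ
        rw [lint_mu D hcp hDne A hA0 (fun x => ⟪θ, x⟫_ℝ ^ 2) (by fun_prop)
          (fun x => sq_nonneg _) (‖θ‖ ^ 2) (fun x => by
            rw [abs_of_nonneg (sq_nonneg _), ← sq_abs]
            have h2 := abs_real_inner_le_norm θ x
            have h3 : |⟪θ, x⟫_ℝ| ^ 2 ≤ (‖θ‖ * ‖x‖) ^ 2 := pow_le_pow_left₀ (abs_nonneg _) h2 2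
            nlinarith [sq_nonneg ‖θ‖, mul_pow ‖θ‖ ‖x‖ 2])]
        refine ENNReal.ofReal_le_ofReal ((hA θ).trans (le_of_eq (by ring)))
      have h4 := hyp A hA0 (prob _ hcp hDne A hA0 h1) (fun x => (rh_pos _ _ x).le)
        (rh_cont _ _).measurable (rh_logc _ A hcvx)
        (fun e he x => by
          unfold rh
          have h5 := Uu_iso e (interior D) (fun y => by
            have h6 : e '' D = D := by
              ext z
              constructor
              · rintro ⟨w, hw, rfl⟩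
                exact (he w).2 hw
              · intro hz
                refine ⟨e.symm z, ?_, e.apply_symm_apply z⟩
                rw [← he, e.apply_symm_apply]
                exact hz
            have h7 : e '' interior D = interior D := by
              have := e.toHomeomorph.image_interior D
              change e '' interior D = interior (e '' D) at this
              rw [this, h6]
            constructor
            · intro hy
              rw [← h7] at hy
              obtain ⟨w, hw, hwy⟩ := hy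
              rw [e.injective hwy] at hw
              exact hw
            · intro hy
              rw [← h7]
              exact ⟨y, hy, rfl⟩) 1 A x
          rw [one_smul, hco.closure_interior_eq_closure_of_nonempty_interior hint,
            hcl.closure_eq] at h5
          rw [h5]) (2 * qa) (by positivity) hcov' v hv hv1
      rw [var_mu _ hcp hDne A hA0 h1 v hv.continuous hv1,
        lint_mu D hcp hDne A hA0 (fun x => ‖fderiv ℝ v x‖ ^ 2)
          ((hv.continuous_fderiv (by norm_num)).norm.pow 2)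
          (fun x => sq_nonneg _) (L' ^ 2) (fun x => by
            rw [abs_of_nonneg (sq_nonneg _)]
            have h2 : ‖fderiv ℝ v x‖ ^ 2 ≤ L' ^ 2 := pow_le_pow_left₀ (norm_nonneg _) (hvL x) 2
            nlinarith [sq_nonneg L', sq_nonneg ‖x‖, mul_nonneg (sq_nonneg L') (sq_nonneg ‖x‖)]),
        ← ENNReal.ofReal_mul (by positivity)] at h4
      have h5 : 0 ≤ EU (Uu D A) (fun x => ‖fderiv ℝ v x‖ ^ 2) :=
        integral_nonneg fun x => mul_nonneg (sq_nonneg _) (Real.exp_pos _).le
      have h6 := (ENNReal.ofReal_le_ofReal_iff (by positivity)).1 h4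
      rw [div_le_iff₀ (by positivity)]
      calc (1 / 20 : ℝ) ^ 2 ≤ _ := pow_le_pow_left₀ (by norm_num) hvar 2
        _ ≤ _ := h6
        _ = _ := by ring
    have h1 := body κ D hcp hco hvol (1 / 20) ((1 / 20) ^ 2 / (k * (2 * qa))) (by positivity)
      (by positivity) hW f L M hf hf2 (by linarith)
    have h2 : VV D f ^ 2 ≤ (B * EV D fun x => ‖fderiv ℝ f x‖) ^ 2 := by
      have h3 : (4 : ℝ) / ((1 / 20) ^ 2 / (k * (2 * qa))) = 3200 * k * qa := by
        field_simp
        norm_num
      rw [h3] at h1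
      rw [mul_pow, hB, Real.sq_sqrt (by positivity)]
      nlinarith
    exact (sq_le_sq₀ hV.le (by positivity)).1 h2
  have h1 := mink2 D hcp hvol B hB0 hfun μ hμ S hS
  have h2 : t ^ 2 * ENNReal.ofReal qa ≤ ENNReal.ofReal C := by
    rw [hqa']
    exact hhalf κ D hcp hco hint hsym μ hμ a t ha1 (ht a 0 (by
      intro h0
      rw [h0, norm_zero] at ha1
      exact zero_ne_one ha1))
  obtain ⟨Λ, hΛ⟩ : ∃ Λ : ℝ≥0∞, Λ = liminf (fun ε : ℝ =>
    (μ (Metric.thickening ε S) - μ S) / ENNReal.ofReal ε) (𝓝[>] 0) := ⟨_, rfl⟩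
  rw [← hΛ] at h1 ⊢
  have htt : t ≠ ⊤ := by
    intro h
    rw [h, ENNReal.top_pow (by norm_num), ENNReal.top_mul (by
      rw [Ne, ENNReal.ofReal_eq_zero, not_le]; exact hqa)] at h2
    exact ENNReal.ofReal_ne_top (top_le_iff.1 h2)
  have ht' : t ≤ ENNReal.ofReal (Real.sqrt (C / qa)) := by
    rw [ENNReal.le_ofReal_iff_toReal_le htt (Real.sqrt_nonneg _)]
    refine Real.le_sqrt_of_sq_le ?_
    rw [le_div_iff₀ hqa]
    have h3 := ENNReal.toReal_mono ENNReal.ofReal_ne_top h2
    rw [ENNReal.toReal_mul, ENNReal.toReal_pow, ENNReal.toReal_ofReal hqa.le,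
      ENNReal.toReal_ofReal hC.le] at h3
    exact h3
  have hμ1 : μ S ≤ 1 := by
    rw [hμ]
    have h3 : ((volume D)⁻¹ • volume.restrict D) S = (volume D)⁻¹ * volume.restrict D S := rfl
    rw [h3]
    calc (volume D)⁻¹ * volume.restrict D S ≤ (volume D)⁻¹ * volume D := by
          refine mul_le_mul_right ?_ _
          calc volume.restrict D S ≤ volume.restrict D univ := measure_mono (subset_univ _)
            _ = volume D := by rw [Measure.restrict_apply_univ]
      _ = 1 := ENNReal.inv_mul_cancel hvol.ne' hfin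
  have hmin : min (μ S) (1 - μ S) ≤ 2 * (μ S * (1 - μ S)) := by
    have hf1 : μ S ≠ ⊤ := ne_top_of_le_ne_top ENNReal.one_ne_top hμ1
    obtain ⟨p, hp0, hp⟩ : ∃ p : ℝ, 0 ≤ p ∧ μ S = ENNReal.ofReal p :=
      ⟨(μ S).toReal, ENNReal.toReal_nonneg, (ENNReal.ofReal_toReal hf1).symm⟩
    have hp1 : p ≤ 1 := by
      rw [hp] at hμ1
      rwa [← ENNReal.ofReal_one, ENNReal.ofReal_le_ofReal_iff (by norm_num)] at hμ1
    have h3 : (1 : ℝ≥0∞) - μ S = ENNReal.ofReal (1 - p) := by
      rw [hp, ENNReal.ofReal_sub _ hp0, ENNReal.ofReal_one]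
    rw [h3, hp, ← ENNReal.ofReal_min, ← ENNReal.ofReal_mul hp0]
    have h4 : (2 : ℝ≥0∞) = ENNReal.ofReal 2 := by norm_num
    rw [h4, ← ENNReal.ofReal_mul (by norm_num)]
    refine ENNReal.ofReal_le_ofReal ?_
    rcases le_total p (1 - p) with h | h
    · rw [min_eq_left h]
      nlinarith
    · rw [min_eq_right h]
      nlinarith
  calc ENNReal.ofReal (1 / (2 * Real.sqrt (3200 * C)) / Real.sqrt k) * t * min (μ S) (1 - μ S)
      ≤ ENNReal.ofReal (1 / (2 * Real.sqrt (3200 * C)) / Real.sqrt k) *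
        ENNReal.ofReal (Real.sqrt (C / qa)) * (2 * (ENNReal.ofReal B * Λ)) := by
        gcongr
        exact hmin.trans (mul_le_mul_right h1 _)
    _ = ENNReal.ofReal (1 / (2 * Real.sqrt (3200 * C)) / Real.sqrt k * Real.sqrt (C / qa) *
          (2 * B)) * Λ := by
        have h4 : (2 : ℝ≥0∞) = ENNReal.ofReal 2 := by norm_num
        rw [h4, ENNReal.ofReal_mul (by positivity), ENNReal.ofReal_mul (by positivity),
          ENNReal.ofReal_mul (by norm_num)]
        ring
    _ = Λ := by
        have h5 : 1 / (2 * Real.sqrt (3200 * C)) / Real.sqrt k * Real.sqrt (C / qa) * (2 * B) =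
            1 := by
          rw [hB]
          have e1 : Real.sqrt (3200 * k * qa) = Real.sqrt 3200 * Real.sqrt k * Real.sqrt qa := by
            rw [Real.sqrt_mul (by positivity), Real.sqrt_mul (by norm_num)]
          have e2 : Real.sqrt (3200 * C) = Real.sqrt 3200 * Real.sqrt C := Real.sqrt_mul (by norm_num) _
          rw [e1, e2, Real.sqrt_div hC.le]
          have : Real.sqrt k ≠ 0 := (Real.sqrt_pos.2 hk).ne'
          have : Real.sqrt C ≠ 0 := (Real.sqrt_pos.2 hC).ne'
          have : Real.sqrt qa ≠ 0 := (Real.sqrt_pos.2 hqa).ne'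
          have : Real.sqrt 3200 ≠ 0 := (Real.sqrt_pos.2 (by norm_num)).ne'
          field_simp
        rw [h5, ENNReal.ofReal_one, one_mul]

end Pool.Agent.W695.KH
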