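import Pool.Agent.H59.L.S8.W695.KH.Defs
import Pool.Agent.H59.L.S8.H888R2.KT.N0
import Pool.Agent.H59.L.S8.H888R2.KT.N2

/-!
# Wrappers: from densities to the potentials `Uu D A`
-/

set_option autoImplicit false

namespace Pool.Agent.W695.KH

open MeasureTheory Set Filter Topology
open scoped ENNReal InnerProductSpace Pointwise
open Pool.Agent.H212R2.KLS (mu)

variable {κ : Type} [Fintype κ]

/-- the density `exp (-Uu D A)` -/
noncomputable def rh (D : Set (Eu κ)) (A : ℝ) (x : Eu κ) : ℝ := Real.exp (-Uu D A x)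

theorem Uu_cont (D : Set (Eu κ)) (A : ℝ) : Continuous (Uu D A) := by
  unfold Uu
  have h := Metric.continuous_infDist_pt D
  fun_prop

theorem rh_cont (D : Set (Eu κ)) (A : ℝ) : Continuous (rh D A) :=
  Real.continuous_exp.comp (Uu_cont D A).neg

theorem rh_pos (D : Set (Eu κ)) (A : ℝ) (x : Eu κ) : 0 < rh D A x := Real.exp_pos _

theorem infDist_iso (e : Eu κ ≃ₗᵢ[ℝ] Eu κ) (Ω : Set (Eu κ)) (h : ∀ x, e x ∈ Ω ↔ x ∈ Ω) (r : ℝ)
    (x : Eu κ) :
    Metric.infDist (e x) (r • closure Ω) = Metric.infDist x (r • closure Ω) := by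
  have h1 : e '' Ω = Ω := by
    ext y
    constructor
    · rintro ⟨z, hz, rfl⟩
      exact (h z).2 hz
    · intro hy
      refine ⟨e.symm y, ?_, e.apply_symm_apply y⟩
      rw [← h, e.apply_symm_apply]
      exact hy
  have h2 : e '' closure Ω = closure Ω := by
    have := e.toHomeomorph.image_closure Ω
    change e '' closure Ω = closure (e '' Ω) at this
    rw [this, h1]
  have h3 : e '' (r • closure Ω) = r • closure Ω := by
    rw [← image_smul, image_image]
    have : (fun x => e (r • x)) = fun x => r • e x := funext fun x => e.map_smul r x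
    rw [this, ← image_image (g := fun y => r • y) (f := e), h2, image_smul]
  conv_lhs => rw [← h3]
  exact Metric.infDist_image e.isometry

theorem Uu_iso (e : Eu κ ≃ₗᵢ[ℝ] Eu κ) (Ω : Set (Eu κ)) (h : ∀ x, e x ∈ Ω ↔ x ∈ Ω) (r A : ℝ)
    (x : Eu κ) : Uu (r • closure Ω) A (e x) = Uu (r • closure Ω) A x := by
  unfold Uu
  rw [infDist_iso e Ω h]

theorem rh_logc (D : Set (Eu κ)) (A : ℝ) (h : ConvexOn ℝ univ (Uu D A)) (x y : Eu κ) (t : ℝ)
    (ht0 : 0 < t) (ht1 : t < 1) :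
    rh D A x ^ (1 - t) * rh D A y ^ t ≤ rh D A ((1 - t) • x + t • y) := by
  unfold rh
  rw [← Real.exp_mul, ← Real.exp_mul, ← Real.exp_add]
  refine Real.exp_le_exp.2 ?_
  have h1 := h.2 (mem_univ x) (mem_univ y) (by linarith : (0 : ℝ) ≤ 1 - t) ht0.le (by ring)
  simp only [smul_eq_mul] at h1
  linarith

/-- Gaussian domination of the density -/
theorem dom (D : Set (Eu κ)) (hD : IsCompact D) (hne : D.Nonempty) (A : ℝ) (hA : 0 < A) :
    ∃ C : ℝ, 0 ≤ C ∧ ∀ x, (1 + ‖x‖ ^ 2) * rh D A x ≤ C * Real.exp (-(A / 8) * ‖x‖ ^ 2) := by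
  obtain ⟨R, hR⟩ := hD.isBounded.exists_norm_le
  obtain ⟨z, hz⟩ := hne
  have hR0 : 0 ≤ R := (norm_nonneg z).trans (hR z hz)
  have hd : ∀ x, ‖x‖ - R ≤ Metric.infDist x D := by
    intro x
    obtain ⟨y, hy, hxy⟩ := hD.exists_infDist_eq_dist ⟨z, hz⟩ x
    rw [hxy, dist_eq_norm]
    have h1 := norm_sub_norm_le x y
    have h2 := hR y hy
    linarith
  have hd2 : ∀ x, ‖x‖ ^ 2 / 2 - R ^ 2 ≤ Metric.infDist x D ^ 2 := by
    intro x
    have h1 := hd x
    have h2 : 0 ≤ Metric.infDist x D := Metric.infDist_nonneg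
    rcases le_total ‖x‖ R with h3 | h3
    · nlinarith [norm_nonneg x, sq_nonneg (‖x‖ - R)]
    · have h4 : (‖x‖ - R) ^ 2 ≤ Metric.infDist x D ^ 2 := by
        apply pow_le_pow_left₀ (by linarith) h1
      nlinarith [sq_nonneg (‖x‖ - 2 * R)]
  refine ⟨(1 + 8 / A) * Real.exp (A / 2 * R ^ 2 - Real.log (∫ y : Eu κ,
    Real.exp (-(A / 2 * Metric.infDist y D ^ 2)))), by positivity, fun x => ?_⟩
  have h1 : 1 + ‖x‖ ^ 2 ≤ (1 + 8 / A) * Real.exp (A / 8 * ‖x‖ ^ 2) := by
    have h2 : A / 8 * ‖x‖ ^ 2 + 1 ≤ Real.exp (A / 8 * ‖x‖ ^ 2) := Real.add_one_le_exp _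
    have h3 : 1 + ‖x‖ ^ 2 ≤ (1 + 8 / A) * (A / 8 * ‖x‖ ^ 2 + 1) := by
      have : (1 + 8 / A) * (A / 8 * ‖x‖ ^ 2 + 1) = A / 8 * ‖x‖ ^ 2 + 1 + ‖x‖ ^ 2 + 8 / A := by
        field_simp
        ring
      rw [this]
      have h4 : 0 ≤ A / 8 * ‖x‖ ^ 2 := by positivity
      have h5 : 0 < 8 / A := by positivity
      linarith
    exact h3.trans (mul_le_mul_of_nonneg_left h2 (by positivity))
  calc (1 + ‖x‖ ^ 2) * rh D A x
      ≤ ((1 + 8 / A) * Real.exp (A / 8 * ‖x‖ ^ 2)) * rh D A x :=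
        mul_le_mul_of_nonneg_right h1 (rh_pos D A x).le
    _ = (1 + 8 / A) * Real.exp (A / 8 * ‖x‖ ^ 2 - Uu D A x) := by
        unfold rh
        rw [mul_assoc, ← Real.exp_add]
        congr 2
    _ ≤ (1 + 8 / A) * Real.exp (A / 2 * R ^ 2 - Real.log (∫ y : Eu κ,
          Real.exp (-(A / 2 * Metric.infDist y D ^ 2))) + -(A / 8) * ‖x‖ ^ 2) := by
        refine mul_le_mul_of_nonneg_left (Real.exp_le_exp.2 ?_) (by positivity)
        unfold Uu
        have h3 := mul_le_mul_of_nonneg_left (hd2 x) (by positivity : (0 : ℝ) ≤ A / 2)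
        linarith
    _ = _ := by rw [Real.exp_add, mul_assoc]

theorem int_sq (D : Set (Eu κ)) (hD : IsCompact D) (hne : D.Nonempty) (A : ℝ) (hA : 0 < A) :
    Integrable fun x => (1 + ‖x‖ ^ 2) * rh D A x := by
  obtain ⟨C, hC, h⟩ := dom D hD hne A hA
  refine ((Pool.Agent.H888R2.KT.N0x.gauss_int (κ := κ) (A / 8) (by positivity)).const_mul C).mono' ?_
    (Eventually.of_forall fun x => ?_)
  · have := rh_cont D A
    apply Continuous.aestronglyMeasurable
    fun_prop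
  · rw [Real.norm_of_nonneg (mul_nonneg (by positivity) (rh_pos D A x).le)]
    exact h x

theorem int_of (D : Set (Eu κ)) (hD : IsCompact D) (hne : D.Nonempty) (A : ℝ) (hA : 0 < A)
    (g : Eu κ → ℝ) (hg : Continuous g) (B : ℝ) (hB : ∀ x, |g x| ≤ B * (1 + ‖x‖ ^ 2)) :
    Integrable fun x => g x * rh D A x := by
  refine ((int_sq D hD hne A hA).const_mul B).mono' ?_ (Eventually.of_forall fun x => ?_)
  · have := rh_cont D A
    apply Continuous.aestronglyMeasurable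
    fun_prop
  · rw [norm_mul, Real.norm_eq_abs, Real.norm_of_nonneg (rh_pos D A x).le, ← mul_assoc]
    exact mul_le_mul_of_nonneg_right (hB x) (rh_pos D A x).le

theorem EU_mu (D : Set (Eu κ)) (A : ℝ) (g : Eu κ → ℝ) :
    ∫ x, g x ∂(mu (rh D A)) = EU (Uu D A) g :=
  Pool.Agent.H888R2.KT.N2x.int_mu (fun x => (rh_pos D A x).le) (rh_cont D A).measurable g

theorem lint_mu (D : Set (Eu κ)) (hD : IsCompact D) (hne : D.Nonempty) (A : ℝ) (hA : 0 < A)
    (g : Eu κ → ℝ) (hg : Continuous g) (hg0 : ∀ x, 0 ≤ g x) (B : ℝ)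
    (hB : ∀ x, |g x| ≤ B * (1 + ‖x‖ ^ 2)) :
    ∫⁻ x, ENNReal.ofReal (g x) ∂(mu (rh D A)) = ENNReal.ofReal (EU (Uu D A) g) := by
  have h1 := int_of D hD hne A hA g hg B hB
  unfold EU
  change _ = ENNReal.ofReal (∫ x, g x * rh D A x)
  rw [ofReal_integral_eq_lintegral_ofReal h1
    (Eventually.of_forall fun x => mul_nonneg (hg0 x) (rh_pos D A x).le)]
  unfold mu
  rw [lintegral_withDensity_eq_lintegral_mul _ (rh_cont D A).measurable.ennreal_ofReal
    hg.measurable.ennreal_ofReal]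
  refine lintegral_congr fun x => ?_
  simp only [Pi.mul_apply]
  rw [mul_comm, ENNReal.ofReal_mul (hg0 x)]

theorem prob (D : Set (Eu κ)) (hD : IsCompact D) (hne : D.Nonempty) (A : ℝ) (hA : 0 < A)
    (h1 : EU (Uu D A) (fun _ => 1) = 1) : mu (rh D A) univ = 1 := by
  have h := lint_mu D hD hne A hA (fun _ => 1) continuous_const (fun _ => zero_le_one) 1
    (fun x => by rw [abs_one, one_mul]; nlinarith [sq_nonneg ‖x‖])
  rw [h1, ENNReal.ofReal_one] at h
  simpa using h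

/-- variance with respect to `mu` -/
theorem var_mu (D : Set (Eu κ)) (hD : IsCompact D) (hne : D.Nonempty) (A : ℝ) (hA : 0 < A)
    (h1 : EU (Uu D A) (fun _ => 1) = 1) (v : Eu κ → ℝ) (hv : Continuous v) (hb : ∀ x, |v x| ≤ 1) :
    ∫ x, (v x - ∫ y, v y ∂(mu (rh D A))) ^ 2 ∂(mu (rh D A)) =
      EU (Uu D A) (fun x => v x ^ 2) - EU (Uu D A) v ^ 2 := by
  have : IsProbabilityMeasure (mu (rh D A)) := ⟨prob D hD hne A hA h1⟩
  have hv1 : Integrable v (mu (rh D A)) :=
    Integrable.of_bound hv.aestronglyMeasurable 1 (Eventually.of_forall fun x => hb x)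
  have hv2 : Integrable (fun x => v x ^ 2) (mu (rh D A)) := by
    refine Integrable.of_bound (hv.pow 2).aestronglyMeasurable 1 (Eventually.of_forall fun x => ?_)
    rw [Real.norm_of_nonneg (sq_nonneg _), ← sq_abs]
    exact pow_le_one₀ (abs_nonneg _) (hb x)
  rw [← EU_mu, ← EU_mu]
  set m := ∫ y, v y ∂(mu (rh D A)) with hm
  have e : ∀ x, (v x - m) ^ 2 = v x ^ 2 - (2 * m * v x - m ^ 2) := fun x => by ring
  simp only [e]
  have h2 : Integrable (fun x => 2 * m * v x - m ^ 2) (mu (rh D A)) :=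
    (hv1.const_mul _).sub (integrable_const _)
  rw [integral_sub hv2 h2, integral_sub (hv1.const_mul _) (integrable_const _),
    integral_const_mul, ← hm, integral_const, probReal_univ]
  simp
  ring

end Pool.Agent.W695.KH
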